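import Pool.Agent.Q239.UZ.DEN
import Pool.Agent.Q239.UZ.PRS
import Pool.Agent.Q239.UZ.PTS
import Pool.Agent.Q239.UZ.ZER
import Pool.Agent.Q52.UZ.CRT
import Pool.Agent.Q170.FP.Norm
import Pool.Agent.Q170.ZP.MultiCount

/-!
# Project HD, job CHAIN: almost all integral points have chains of prime factors
-/

set_option autoImplicit false
set_option linter.unusedSectionVars false

open IsDedekindDomain NumberField

namespace Pool.Agent.Q224.HD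

open Pool.Agent.Q170.FP
open Pool.Agent.Q170.ZP.Count (bezout)
open MvPolynomial (eval degreeOf rename)

/-- the residue field is not smaller than `p` -/
theorem p_le_card {K : Type} [Field K] [NumberField K] (v : HeightOneSpectrum (𝓞 K)) {p : ℕ}
    (hp : p.Prime) (hpv : (p : 𝓞 K) ∈ v.asIdeal) : p ≤ Nat.card (𝓞 K ⧸ v.asIdeal) := by
  have hfin : Finite (𝓞 K ⧸ v.asIdeal) := Ring.HasFiniteQuotients.finiteQuotient v.ne_bot
  have : Fintype (𝓞 K ⧸ v.asIdeal) := Fintype.ofFinite _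
  have hprime : v.asIdeal.IsPrime := v.isPrime
  have hdom : IsDomain (𝓞 K ⧸ v.asIdeal) := Ideal.Quotient.isDomain _
  have hp0 : ((p : ℕ) : 𝓞 K ⧸ v.asIdeal) = 0 := by
    have h1 := Ideal.Quotient.eq_zero_iff_mem.2 hpv
    rw [map_natCast] at h1
    exact h1
  have : Fact p.Prime := ⟨hp⟩
  have : CharP (𝓞 K ⧸ v.asIdeal) p := (CharP.charP_iff_prime_eq_zero hp).2 hp0
  rw [Nat.card_eq_fintype_card]
  have h2 : p ∣ Fintype.card (𝓞 K ⧸ v.asIdeal) :=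
    (CharP.cast_eq_zero_iff (𝓞 K ⧸ v.asIdeal) p _).1 (Nat.cast_card_eq_zero _)
  exact Nat.le_of_dvd Fintype.card_pos h2

theorem val_lt_iff (v : HeightOneSpectrum (𝓞 ℚ)) (p : ℕ) (hp : p.Prime)
    (hpv : (p : 𝓞 ℚ) ∈ v.asIdeal) (n : ℤ) :
    v.valuation ℚ (n : ℚ) < 1 ↔ (p : ℤ) ∣ n := by
  have h0 : ((n : ℤ) : ℚ) = algebraMap (𝓞 ℚ) ℚ ((n : ℤ) : 𝓞 ℚ) := by simp
  rw [h0, HeightOneSpectrum.valuation_lt_one_iff_mem]
  constructor
  · intro h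
    by_contra hcon
    have hco : IsCoprime (p : ℤ) n :=
      ((Nat.prime_iff_prime_int.1 hp).coprime_iff_not_dvd).2 hcon
    obtain ⟨a, b, hab⟩ := hco
    apply v.isPrime.ne_top
    rw [Ideal.eq_top_iff_one]
    have h1 := congrArg (Int.castRingHom (𝓞 ℚ)) hab
    rw [map_add, map_mul, map_mul, map_one, map_natCast] at h1
    rw [← h1]
    exact Ideal.add_mem _ (Ideal.mul_mem_left _ _ hpv) (Ideal.mul_mem_left _ _ h)
  · rintro ⟨m, rfl⟩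
    push_cast
    exact Ideal.mul_mem_right _ _ hpv

theorem one_prime {r : ℕ} (D E : MvPolynomial (Fin r) ℤ) (l : Fin r) (hl : degreeOf l D = 1)
    (hrel : IsRelPrime (MvPolynomial.map (Int.castRingHom ℚ) D)
      (MvPolynomial.map (Int.castRingHom ℚ) E)) (Q : ℕ) (ε : ℝ) (hε : 0 < ε) :
    ∃ B H₀ : ℕ, ∀ H : ℕ, H₀ ≤ H →
      ({t : Fin r → ℤ | (∀ j, |t j| ≤ H) ∧ ¬ (eval t D ≠ 0 ∧ ∃ p : ℕ, p.Prime ∧ Q < p ∧ p ≤ B ∧
        (p : ℤ) ∣ eval t D ∧ ¬ (p : ℤ) ∣ eval t E)}.ncard : ℝ) ≤ ε * (2 * H + 1) ^ r := by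
  classical
  obtain ⟨P, hP⟩ : ∃ P, P = MvPolynomial.map (Int.castRingHom ℚ) D := ⟨_, rfl⟩
  obtain ⟨E₁, hE₁⟩ : ∃ E₁, E₁ = MvPolynomial.map (Int.castRingHom ℚ) E := ⟨_, rfl⟩
  rw [← hP, ← hE₁] at hrel
  have hfg : IsRelPrime (sepR ℚ l P) (sepR ℚ l E₁) := by
    intro d hdf hdg
    have h1 : (sepR ℚ l).symm d ∣ P := by
      have := map_dvd (sepR ℚ l).symm hdf
      rwa [AlgEquiv.symm_apply_apply] at this
    have h2 : (sepR ℚ l).symm d ∣ E₁ := by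
      have := map_dvd (sepR ℚ l).symm hdg
      rwa [AlgEquiv.symm_apply_apply] at this
    have h3 := (hrel h1 h2).map (sepR ℚ l)
    rwa [AlgEquiv.apply_symm_apply] at h3
  obtain ⟨R, U₀, V₀, hR, hUV₀⟩ := bezout (sepR ℚ l P) (sepR ℚ l E₁) hfg
  obtain ⟨U, hU⟩ : ∃ U, U = (sepR ℚ l).symm U₀ := ⟨_, rfl⟩
  obtain ⟨V, hV⟩ : ∃ V, V = (sepR ℚ l).symm V₀ := ⟨_, rfl⟩
  have hUV : U * P + V * E₁ = rename Subtype.val R := by
    have h1 := congrArg (sepR ℚ l).symm hUV₀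
    rw [map_add, map_mul, map_mul, AlgEquiv.symm_apply_apply, AlgEquiv.symm_apply_apply,
      sepR_symm_C] at h1
    rw [hU, hV]
    exact h1
  obtain ⟨A, hA⟩ : ∃ A, A = (sepR ℚ l P).coeff 1 := ⟨_, rfl⟩
  obtain ⟨B₀, hB₀⟩ : ∃ B₀, B₀ = (sepR ℚ l P).coeff 0 := ⟨_, rfl⟩
  have hdeg : (sepR ℚ l P).natDegree = 1 := by
    rw [natDegree_sepR, hP, degreeOf_inj _ (Int.castRingHom ℚ).injective_int, hl]
  have hA0 : A ≠ 0 := by
    rw [hA, ← hdeg]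
    intro h0
    have h1 : sepR ℚ l P = 0 := Polynomial.leadingCoeff_eq_zero.1 h0
    rw [h1, Polynomial.natDegree_zero] at hdeg
    exact zero_ne_one hdeg
  have hX : (sepR ℚ l).symm Polynomial.X = MvPolynomial.X l := by
    rw [AlgEquiv.symm_apply_eq, sepR, AlgEquiv.trans_apply, MvPolynomial.renameEquiv_apply,
      MvPolynomial.rename_X, Equiv.optionSubtypeNe_symm_self, MvPolynomial.optionEquivLeft_X_none]
  have hPlin : P = rename Subtype.val A * MvPolynomial.X l + rename Subtype.val B₀ := by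
    have h1 : sepR ℚ l P = Polynomial.C A * Polynomial.X + Polynomial.C B₀ := by
      rw [hA, hB₀]
      exact Polynomial.eq_X_add_C_of_natDegree_le_one (by rw [hdeg])
    have h2 := congrArg (sepR ℚ l).symm h1
    rw [AlgEquiv.symm_apply_apply, map_add, map_mul, sepR_symm_C, sepR_symm_C, hX] at h2
    exact h2
  obtain ⟨B₁, H₀, hcount⟩ := Q239.UZ.t_DEN Q239.UZ.t_PRS Q239.UZ.t_PTS _root_.Q52.UZ.t_CRT
    Q239.UZ.t_ZER ℚ r l A B₀ R P E₁ U V hA0 hR hPlin hUV Q ε hε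
  refine ⟨B₁, H₀, fun H hH => le_trans ?_ (hcount H hH)⟩
  rw [Nat.cast_le]
  refine Set.ncard_le_ncard ?_ ?_
  swap
  · refine (Finset.finite_toSet (Pool.Agent.Q170.ZP.Count.box r H)).subset ?_
    rintro t ⟨ht, -⟩
    exact Finset.mem_coe.2 (Pool.Agent.Q170.ZP.Count.mem_box.2 ht)
  rintro t ⟨ht, hbad⟩
  refine ⟨ht, fun hgood => hbad ?_⟩
  obtain ⟨hPt, v, p, hp, hQp, hpv, hpv2, hcard, hvP, hz1⟩ := hgood
  have hev : ∀ F : MvPolynomial (Fin r) ℤ,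
      eval (fun j => (t j : ℚ)) (MvPolynomial.map (Int.castRingHom ℚ) F) = ((eval t F : ℤ) : ℚ) := by
    intro F
    induction F using MvPolynomial.induction_on with
    | C a => simp
    | add p q hp hq => rw [map_add, map_add, map_add, hp, hq, Int.cast_add]
    | mul_X p i hp =>
      rw [map_mul, map_mul, map_mul, hp, MvPolynomial.map_X, MvPolynomial.eval_X,
        MvPolynomial.eval_X, Int.cast_mul]
  rw [hP, hev] at hPt hvP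
  rw [hE₁, hev] at hz1
  refine ⟨by exact_mod_cast hPt, p, hp, hQp, (p_le_card v hp hpv).trans hcard,
    (val_lt_iff v p hp hpv _).1 hvP, fun h => ?_⟩
  have := (val_lt_iff v p hp hpv _).2 h
  rw [hz1] at this
  exact lt_irrefl _ this

/-- chains of bounded prime factors -/
theorem chain_bdd {r : ℕ} (D : MvPolynomial (Fin r) ℤ) (𝓔 : ℕ → MvPolynomial (Fin r) ℤ)
    (Φ : ℕ → ℕ) (l : Fin r) (hl : degreeOf l D = 1)
    (hrel : ∀ q, IsRelPrime (MvPolynomial.map (Int.castRingHom ℚ) D)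
      (MvPolynomial.map (Int.castRingHom ℚ) (𝓔 q))) (T : ℕ) :
    ∀ ε : ℝ, 0 < ε → ∃ B H₀ : ℕ, ∀ H : ℕ, H₀ ≤ H →
      ({t : Fin r → ℤ | (∀ j, |t j| ≤ H) ∧ ¬ (eval t D ≠ 0 ∧ ∃ p : Fin T → ℕ,
        (∀ ν, p ν ≤ B) ∧
        (∀ ν, (p ν).Prime ∧ (p ν : ℤ) ∣ eval t D ∧ Φ 0 < p ν ∧ ¬ (p ν : ℤ) ∣ eval t (𝓔 0)) ∧
        ∀ μ ν, μ < ν → Φ (p μ) < p ν ∧ ¬ (p ν : ℤ) ∣ eval t (𝓔 (p μ)))}.ncard : ℝ) ≤
        ε * (2 * H + 1) ^ r := by
  induction T with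
  | zero =>
    intro ε hε
    obtain ⟨B, H₀, h⟩ := one_prime D (𝓔 0) l hl (hrel 0) 0 ε hε
    refine ⟨B, H₀, fun H hH => le_trans ?_ (h H hH)⟩
    rw [Nat.cast_le]
    refine Set.ncard_le_ncard ?_ ?_
    · rintro t ⟨ht, hbad⟩
      refine ⟨ht, fun hgood => hbad ⟨hgood.1, fun ν => ν.elim0, fun ν => ν.elim0,
        fun ν => ν.elim0, fun ν => ν.elim0⟩⟩
    · refine (Finset.finite_toSet (Pool.Agent.Q170.ZP.Count.box r H)).subset ?_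
      rintro t ⟨ht, -⟩
      exact Finset.mem_coe.2 (Pool.Agent.Q170.ZP.Count.mem_box.2 ht)
  | succ T ih =>
    intro ε hε
    obtain ⟨B, H₁, h1⟩ := ih (ε / 2) (by positivity)
    obtain ⟨Q, hQ⟩ : ∃ Q, Q = Φ 0 + ∑ q ∈ Finset.range (B + 1), Φ q := ⟨_, rfl⟩
    obtain ⟨E, hE⟩ : ∃ E, E = 𝓔 0 * ∏ q ∈ Finset.range (B + 1), 𝓔 q := ⟨_, rfl⟩
    have hrelE : IsRelPrime (MvPolynomial.map (Int.castRingHom ℚ) D)
        (MvPolynomial.map (Int.castRingHom ℚ) E) := by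
      rw [hE, map_mul, map_prod]
      exact (hrel 0).mul_right (IsRelPrime.prod_right fun q _ => hrel q)
    obtain ⟨B', H₂, h2⟩ := one_prime D E l hl hrelE Q (ε / 2) (by positivity)
    refine ⟨max B B', max H₁ H₂, fun H hH => ?_⟩
    have hH1 := h1 H (le_trans (le_max_left _ _) hH)
    have hH2 := h2 H (le_trans (le_max_right _ _) hH)
    have hfin : {t : Fin r → ℤ | ∀ j, |t j| ≤ H}.Finite := by
      refine (Finset.finite_toSet (Pool.Agent.Q170.ZP.Count.box r H)).subset ?_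
      intro t ht
      exact Finset.mem_coe.2 (Pool.Agent.Q170.ZP.Count.mem_box.2 ht)
    set S₁ := {t : Fin r → ℤ | (∀ j, |t j| ≤ H) ∧ ¬ (eval t D ≠ 0 ∧ ∃ p : Fin T → ℕ,
        (∀ ν, p ν ≤ B) ∧
        (∀ ν, (p ν).Prime ∧ (p ν : ℤ) ∣ eval t D ∧ Φ 0 < p ν ∧ ¬ (p ν : ℤ) ∣ eval t (𝓔 0)) ∧
        ∀ μ ν, μ < ν → Φ (p μ) < p ν ∧ ¬ (p ν : ℤ) ∣ eval t (𝓔 (p μ)))} with hS₁
    set S₂ := {t : Fin r → ℤ | (∀ j, |t j| ≤ H) ∧ ¬ (eval t D ≠ 0 ∧ ∃ p : ℕ, p.Prime ∧ Q < p ∧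
        p ≤ B' ∧ (p : ℤ) ∣ eval t D ∧ ¬ (p : ℤ) ∣ eval t E)} with hS₂
    have hf1 : S₁.Finite := hfin.subset fun t ht => ht.1
    have hf2 : S₂.Finite := hfin.subset fun t ht => ht.1
    have hsub : {t : Fin r → ℤ | (∀ j, |t j| ≤ H) ∧ ¬ (eval t D ≠ 0 ∧ ∃ p : Fin (T + 1) → ℕ,
        (∀ ν, p ν ≤ max B B') ∧
        (∀ ν, (p ν).Prime ∧ (p ν : ℤ) ∣ eval t D ∧ Φ 0 < p ν ∧ ¬ (p ν : ℤ) ∣ eval t (𝓔 0)) ∧
        ∀ μ ν, μ < ν → Φ (p μ) < p ν ∧ ¬ (p ν : ℤ) ∣ eval t (𝓔 (p μ)))} ⊆ S₁ ∪ S₂ := by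
      rintro t ⟨ht, hbad⟩
      by_contra hcon
      rw [Set.mem_union, not_or] at hcon
      obtain ⟨hc1, hc2⟩ := hcon
      have g1 : eval t D ≠ 0 ∧ ∃ p : Fin T → ℕ, (∀ ν, p ν ≤ B) ∧
          (∀ ν, (p ν).Prime ∧ (p ν : ℤ) ∣ eval t D ∧ Φ 0 < p ν ∧ ¬ (p ν : ℤ) ∣ eval t (𝓔 0)) ∧
          ∀ μ ν, μ < ν → Φ (p μ) < p ν ∧ ¬ (p ν : ℤ) ∣ eval t (𝓔 (p μ)) := by
        by_contra hc
        exact hc1 ⟨ht, hc⟩
      have g2 : eval t D ≠ 0 ∧ ∃ p : ℕ, p.Prime ∧ Q < p ∧ p ≤ B' ∧ (p : ℤ) ∣ eval t D ∧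
          ¬ (p : ℤ) ∣ eval t E := by
        by_contra hc
        exact hc2 ⟨ht, hc⟩
      obtain ⟨hD0, p, hpB, hp1, hp2⟩ := g1
      obtain ⟨-, q, hq, hQq, hqB, hqD, hqE⟩ := g2
      have hqE0 : ¬ (q : ℤ) ∣ eval t (𝓔 0) := by
        intro h
        apply hqE
        rw [hE, map_mul]
        exact h.mul_right _
      have hqEs : ∀ x, x ≤ B → ¬ (q : ℤ) ∣ eval t (𝓔 x) := by
        intro x hx h
        apply hqE
        rw [hE, map_mul, map_prod]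
        refine Dvd.dvd.mul_left ?_ _
        exact h.trans (Finset.dvd_prod_of_mem (fun i => eval t (𝓔 i))
          (Finset.mem_range.2 (by omega)))
      have hQs : ∀ x, x ≤ B → Φ x ≤ Q := by
        intro x hx
        rw [hQ]
        have : Φ x ≤ ∑ q ∈ Finset.range (B + 1), Φ q :=
          Finset.single_le_sum (f := Φ) (fun _ _ => Nat.zero_le _)
            (Finset.mem_range.2 (by omega))
        omega
      have hQ0 : Φ 0 ≤ Q := by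
        rw [hQ]
        omega
      refine hbad ⟨hD0, Fin.snoc p q, ?_, ?_, ?_⟩
      · intro ν
        refine Fin.lastCases ?_ (fun i => ?_) ν
        · rw [Fin.snoc_last]
          exact hqB.trans (le_max_right _ _)
        · rw [Fin.snoc_castSucc]
          exact (hpB i).trans (le_max_left _ _)
      · intro ν
        refine Fin.lastCases ?_ (fun i => ?_) ν
        · rw [Fin.snoc_last]
          exact ⟨hq, hqD, lt_of_le_of_lt hQ0 hQq, hqE0⟩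
        · rw [Fin.snoc_castSucc]
          exact hp1 i
      · intro μ ν
        refine Fin.lastCases ?_ (fun i => ?_) ν
        · refine Fin.lastCases ?_ (fun i => ?_) μ
          · intro h
            exact absurd h (lt_irrefl _)
          · intro _
            rw [Fin.snoc_last, Fin.snoc_castSucc]
            exact ⟨lt_of_le_of_lt (hQs _ (hpB i)) hQq, hqEs _ (hpB i)⟩
        · refine Fin.lastCases ?_ (fun i' => ?_) μ
          · intro h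
            exact absurd h (not_lt.2 (Fin.le_last _))
          · intro h
            rw [Fin.snoc_castSucc, Fin.snoc_castSucc]
            exact hp2 i' i (Fin.castSucc_lt_castSucc_iff.1 h)
    have hle : ({t : Fin r → ℤ | (∀ j, |t j| ≤ H) ∧ ¬ (eval t D ≠ 0 ∧ ∃ p : Fin (T + 1) → ℕ,
        (∀ ν, p ν ≤ max B B') ∧
        (∀ ν, (p ν).Prime ∧ (p ν : ℤ) ∣ eval t D ∧ Φ 0 < p ν ∧ ¬ (p ν : ℤ) ∣ eval t (𝓔 0)) ∧
        ∀ μ ν, μ < ν → Φ (p μ) < p ν ∧ ¬ (p ν : ℤ) ∣ eval t (𝓔 (p μ)))}.ncard : ℝ) ≤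
        S₁.ncard + S₂.ncard := by
      exact_mod_cast (Set.ncard_le_ncard hsub (hf1.union hf2)).trans (Set.ncard_union_le _ _)
    calc _ ≤ (S₁.ncard : ℝ) + S₂.ncard := hle
      _ ≤ ε / 2 * (2 * H + 1) ^ r + ε / 2 * (2 * H + 1) ^ r := add_le_add hH1 hH2
      _ = ε * (2 * H + 1) ^ r := by ring

theorem chain_core (r L T : ℕ) (D : Fin L → MvPolynomial (Fin r) ℤ)
    (𝓔 : Fin L → ℕ → MvPolynomial (Fin r) ℤ) (Φ : ℕ → ℕ)
    (hdeg : ∀ l, ∃ j, degreeOf j (D l) = 1)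
    (hrel : ∀ l q, IsRelPrime (MvPolynomial.map (Int.castRingHom ℚ) (D l))
      (MvPolynomial.map (Int.castRingHom ℚ) (𝓔 l q)))
    (ε : ℝ) (hε : 0 < ε) : ∃ H₀ : ℕ, ∀ H : ℕ, H₀ ≤ H →
    ({t : Fin r → ℤ | (∀ j, |t j| ≤ H) ∧ ¬ ∀ l, eval t (D l) ≠ 0 ∧
      ∃ p : Fin T → ℕ,
        (∀ ν, (p ν).Prime ∧ (p ν : ℤ) ∣ eval t (D l) ∧ Φ 0 < p ν ∧
          ¬ (p ν : ℤ) ∣ eval t (𝓔 l 0)) ∧
        ∀ μ ν, μ < ν → Φ (p μ) < p ν ∧ ¬ (p ν : ℤ) ∣ eval t (𝓔 l (p μ))}.ncard : ℝ) ≤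
      ε * (2 * H + 1) ^ r := by
  classical
  choose j hj using hdeg
  have hε' : 0 < ε / (L + 1) := by positivity
  choose B H₀ hc using fun l => chain_bdd (D l) (𝓔 l) Φ (j l) (hj l) (hrel l) T _ hε'
  refine ⟨∑ l, H₀ l, fun H hH => ?_⟩
  have hfin : {t : Fin r → ℤ | ∀ j, |t j| ≤ H}.Finite := by
    refine (Finset.finite_toSet (Pool.Agent.Q170.ZP.Count.box r H)).subset ?_
    intro t ht
    exact Finset.mem_coe.2 (Pool.Agent.Q170.ZP.Count.mem_box.2 ht)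
  have hHl : ∀ l, H₀ l ≤ H := fun l =>
    (Finset.single_le_sum (f := H₀) (fun _ _ => Nat.zero_le _) (Finset.mem_univ l)).trans hH
  let S : Fin L → Set (Fin r → ℤ) := fun l => {t : Fin r → ℤ | (∀ j, |t j| ≤ H) ∧
    ¬ (eval t (D l) ≠ 0 ∧ ∃ p : Fin T → ℕ, (∀ ν, p ν ≤ B l) ∧
        (∀ ν, (p ν).Prime ∧ (p ν : ℤ) ∣ eval t (D l) ∧ Φ 0 < p ν ∧
          ¬ (p ν : ℤ) ∣ eval t (𝓔 l 0)) ∧
        ∀ μ ν, μ < ν → Φ (p μ) < p ν ∧ ¬ (p ν : ℤ) ∣ eval t (𝓔 l (p μ)))}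
  have hSf : ∀ l, (S l).Finite := fun l => hfin.subset fun t ht => ht.1
  have hsub : {t : Fin r → ℤ | (∀ j, |t j| ≤ H) ∧ ¬ ∀ l, eval t (D l) ≠ 0 ∧
      ∃ p : Fin T → ℕ,
        (∀ ν, (p ν).Prime ∧ (p ν : ℤ) ∣ eval t (D l) ∧ Φ 0 < p ν ∧
          ¬ (p ν : ℤ) ∣ eval t (𝓔 l 0)) ∧
        ∀ μ ν, μ < ν → Φ (p μ) < p ν ∧ ¬ (p ν : ℤ) ∣ eval t (𝓔 l (p μ))} ⊆
      ⋃ l ∈ (Finset.univ : Finset (Fin L)), S l := by
    rintro t ⟨ht, hbad⟩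
    by_contra hcon
    apply hbad
    intro l
    by_contra hl
    apply hcon
    rw [Set.mem_iUnion₂]
    refine ⟨l, Finset.mem_univ _, ht, fun hg => hl ?_⟩
    obtain ⟨h1, p, -, h2, h3⟩ := hg
    exact ⟨h1, p, h2, h3⟩
  have hcard : ({t : Fin r → ℤ | (∀ j, |t j| ≤ H) ∧ ¬ ∀ l, eval t (D l) ≠ 0 ∧
      ∃ p : Fin T → ℕ,
        (∀ ν, (p ν).Prime ∧ (p ν : ℤ) ∣ eval t (D l) ∧ Φ 0 < p ν ∧
          ¬ (p ν : ℤ) ∣ eval t (𝓔 l 0)) ∧
        ∀ μ ν, μ < ν → Φ (p μ) < p ν ∧ ¬ (p ν : ℤ) ∣ eval t (𝓔 l (p μ))}.ncard : ℝ) ≤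
      ∑ l, ((S l).ncard : ℝ) := by
    have h1 := Set.ncard_le_ncard hsub ((Finset.finite_toSet _).biUnion fun l _ => hSf l)
    have h2 := Finset.set_ncard_biUnion_le (Finset.univ : Finset (Fin L)) S
    exact_mod_cast h1.trans h2
  calc _ ≤ ∑ l, ((S l).ncard : ℝ) := hcard
    _ ≤ ∑ _l : Fin L, ε / (L + 1) * (2 * H + 1) ^ r :=
        Finset.sum_le_sum fun l _ => hc l H (hHl l)
    _ = L * (ε / (L + 1)) * (2 * H + 1) ^ r := by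
        rw [Finset.sum_const, Finset.card_univ, Fintype.card_fin, nsmul_eq_mul]
        ring
    _ ≤ ε * (2 * H + 1) ^ r := by
        refine mul_le_mul_of_nonneg_right ?_ (by positivity)
        rw [← mul_div_assoc, div_le_iff₀ (by positivity)]
        nlinarith

end Pool.Agent.Q224.HD
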