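import Pool.Agent.Q170.HD.St
import Pool.Agent.Q224.HD.ChainCore

/-!
# Project HD, job CHAIN
-/

set_option autoImplicit false
set_option linter.unusedSectionVars false

namespace Pool.Agent.Q224.HD

open Pool.Agent.Q170.HD

theorem chain : S_CHAIN := fun r L T D 𝓔 Φ h1 h2 ε hε => chain_core r L T D 𝓔 Φ h1 h2 ε hε

end Pool.Agent.Q224.HD
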