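import Pool.Agent.Y226.ZM.Tate3
import Pool.Agent.Q223.UV.Surj

/-!
# Project HD, job PAIR: minimal isogenies of two elliptic curves with multiplicative reduction
-/

set_option autoImplicit false
set_option linter.unusedSectionVars false

open UpperHalfPlane H294ZP

namespace Pool.Agent.Q224.HD

open Pool.Agent.Y226 Pool.Agent.Y226.ZG Pool.Agent.Y226.ZM

theorem exp_eq {x y : ℝ} (hx : 1 < x) {a b A B : ℕ} (ha : 0 < a) (hab : a.Coprime b)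
    (hAB : A.Coprime B) (hA : 0 < A)
    (h1 : y ^ b = x ^ a) (h2 : y ^ B = x ^ A) : A = a ∧ B = b := by
  have h3 : x ^ (a * B) = x ^ (A * b) := by
    rw [pow_mul, ← h1, pow_mul, ← h2, ← pow_mul, ← pow_mul, mul_comm b B]
  have h4 : a * B = A * b := pow_right_injective₀ (one_pos.trans hx) hx.ne' h3
  have h5 : a ∣ A := by
    have : a ∣ A * b := ⟨B, h4.symm⟩
    exact hab.dvd_of_dvd_mul_right this
  have h6 : A ∣ a := by
    have : A ∣ a * B := ⟨b, h4⟩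
    exact hAB.dvd_of_dvd_mul_right this
  have h7 : A = a := Nat.dvd_antisymm h6 h5
  subst h7
  exact ⟨rfl, Nat.eq_of_mul_eq_mul_left hA h4⟩

section near

variable {C : Type} [NormedField C] [IsUltrametricDist C]

theorem near_norm {x : C} (h : ‖x - 1‖ < 1) : ‖x‖ = 1 := neq_one h norm_one

theorem near_mul {x y : C} (hx : ‖x - 1‖ < 1) (hy : ‖y - 1‖ < 1) : ‖x * y - 1‖ < 1 := by
  have e : x * y - 1 = (x - 1) * y + (y - 1) := by ring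
  rw [e]
  refine (IsUltrametricDist.norm_add_le_max _ _).trans_lt (max_lt ?_ hy)
  rw [norm_mul, near_norm hy, mul_one]
  exact hx

theorem near_pow {x : C} (hx : ‖x - 1‖ < 1) (n : ℕ) : ‖x ^ n - 1‖ < 1 := by
  induction n with
  | zero => simp
  | succ n ih =>
    rw [pow_succ]
    exact near_mul ih hx

theorem near_inv {x : C} (hx : ‖x - 1‖ < 1) : ‖x⁻¹ - 1‖ < 1 := by
  have h0 : x ≠ 0 := norm_pos_iff.1 (by rw [near_norm hx]; exact one_pos)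
  have e : x⁻¹ - 1 = -((x - 1) * x⁻¹) := by
    field_simp
    ring
  rw [e, norm_neg, norm_mul, norm_inv, near_norm hx, inv_one, mul_one]
  exact hx

end near

theorem pair_core (C : Type) [NormedField C] [IsUltrametricDist C] [CompleteSpace C]
    [CharZero C] [IsAlgClosed C] (p : ℕ) [hpf : Fact p.Prime] (φ : ℂ →+* C) (hp0 : 0 < ‖(p : C)‖)
    (hp1 : ‖(p : C)‖ < 1) (X Y : ℂ) (hX : 1 < ‖φ X‖) (hY : 1 < ‖φ Y‖) (a b : ℕ) (ha : 0 < a)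
    (hb : 0 < b) (hab : a.Coprime b) (hn : ‖φ Y‖ ^ b = ‖φ X‖ ^ a) (N₀ : ℕ)
    (hN : 0 < N₀) (hΨ : PsiE ιZ (mP N₀) (mD N₀) X Y = 0)
    (hmin : ∀ N', 0 < N' → PsiE ιZ (mP N') (mD N') X Y = 0 → N₀ ≤ N') :
    ∃ (g s : ℕ) (ζ : C), 0 < g ∧ g.Coprime p ∧ IsPrimitiveRoot ζ g ∧
      N₀ = a * b * (g * p ^ s) ^ 2 ∧ ‖φ X ^ a / φ Y ^ b - ζ‖ < 1 := by
  obtain ⟨τ, hτ⟩ := Pool.Agent.Q223.UV.jj_surj X
  obtain ⟨ι, _, α, δ, β, h, h1, h2, -, h4, -⟩ := modular_spec N₀ hN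
  have h5 := h4 τ Y
  rw [hτ, hΨ] at h5
  obtain ⟨k, -, hk⟩ := Finset.prod_eq_zero_iff.1 h5
  set ψ := φ.comp ιZ with hψdef
  have hψ : ∀ z, ‖ψ z‖ ≤ 1 := fun z => norm_le_one_of_isIntegral φ (x := ιZ z) z.2
  have hdet : (0 : ℤ) < (α k : ℤ) * (δ k : ℤ) - (β k) * 0 := by
    have := h1 k
    have h6 : (0 : ℤ) < (α k : ℤ) * (δ k : ℤ) := by exact_mod_cast Nat.mul_pos this.1 this.2.1
    linarith
  have hw : ((h k τ : ℍ) : ℂ) * ((0 : ℤ) * (τ : ℂ) + ((δ k : ℤ) : ℂ)) =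
      ((α k : ℤ) : ℂ) * (τ : ℂ) + ((β k : ℤ) : ℂ) := by
    have := h2 k τ
    push_cast
    rw [zero_mul, zero_add]
    exact this
  obtain ⟨A, B, g, ζ, hA, hB, hAB, hg, hζ, hq, -, hΨ2, h0, hh0, hlev⟩ :=
    tate_rel3 (K₀ := ℂ) (i₀ := ιZ) (ρ := RingHom.id ℂ) (φ := φ) (ψ := ψ) hψ (by ext; rfl) rfl
      hdet hw (X := X) (Y := Y) hτ.symm (by
        show Y = jj (h k τ)
        exact sub_eq_zero.1 hk) hX
  have hζn : ‖ζ‖ = 1 := by
    have h1 : ‖ζ‖ ^ g = 1 := by rw [← norm_pow, hζ.pow_eq_one, norm_one]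
    exact (pow_eq_one_iff_of_nonneg (norm_nonneg _) hg.ne').1 h1
  have hAB2 : ‖φ Y‖ ^ B = ‖φ X‖ ^ A := by
    have h1 := congrArg norm hq
    rw [norm_mul, norm_pow, norm_pow, hζn, one_mul, qT_norm hψ hX, qT_norm hψ hY, inv_pow,
      inv_pow] at h1
    exact inv_injective h1
  obtain ⟨rfl, rfl⟩ := exp_eq hX ha hab hAB hA hn hAB2
  have hN' : N₀ = A * B * g ^ 2 := by
    have e1 : ((A * B * g ^ 2 * h0 ^ 2 : ℕ) : ℤ) = (N₀ : ℤ) := by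
      rw [hlev, mul_zero, sub_zero, ← (h1 k).2.2]
      push_cast
      rfl
    have e2 : A * B * g ^ 2 * h0 ^ 2 = N₀ := by exact_mod_cast e1
    have e3 : N₀ ≤ A * B * g ^ 2 := hmin _ (by positivity) (by
      have hYe : jj (h k τ) = Y := (sub_eq_zero.1 hk).symm
      rw [hτ, hYe] at hΨ2
      exact hΨ2)
    have e4 : A * B * g ^ 2 * 1 ≤ A * B * g ^ 2 * h0 ^ 2 :=
      Nat.mul_le_mul_left _ (Nat.one_le_pow _ _ hh0)
    omega
  obtain ⟨g', s, ζ', ε, hgg, hg'p, hζ', hε, hζe⟩ := root_decomp (p := p) hg hζ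
  have hg'0 : 0 < g' := Nat.pos_of_ne_zero (by
    rintro rfl
    rw [zero_mul] at hgg
    omega)
  refine ⟨g', s, ζ', hg'0, hg'p, hζ', by rw [hN', hgg], ?_⟩
  have hε1 : ‖ε - 1‖ < 1 := ppow_root_lt hp1 hε.pow_eq_one
  have hζ'n : ‖ζ'‖ = 1 := by
    have h1 : ‖ζ'‖ ^ g' = 1 := by rw [← norm_pow, hζ'.pow_eq_one, norm_one]
    exact (pow_eq_one_iff_of_nonneg (norm_nonneg _) hg'0.ne').1 h1
  have hφX0 : φ X ≠ 0 := norm_pos_iff.1 (one_pos.trans hX)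
  have hφY0 : φ Y ≠ 0 := norm_pos_iff.1 (one_pos.trans hY)
  set u := qT ψ (φ X) * φ X with hu
  set v := qT ψ (φ Y) * φ Y with hv
  have hu1 : ‖u - 1‖ < 1 := (qT_expand' hψ hX).trans_lt (inv_lt_one_of_one_lt₀ hX)
  have hv1 : ‖v - 1‖ < 1 := (qT_expand' hψ hY).trans_lt (inv_lt_one_of_one_lt₀ hY)
  have hv0 : v ≠ 0 := norm_pos_iff.1 (by rw [near_norm hv1]; exact one_pos)
  have e1 : φ X ^ A / φ Y ^ B = ζ' * (ε * u ^ A * (v ^ B)⁻¹) := by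
    have e2 : v ^ B * φ X ^ A = ζ' * ε * u ^ A * φ Y ^ B := by
      rw [hv, hu, mul_pow, mul_pow, hq, ← hζe]
      ring
    have e3 : v ^ B ≠ 0 := pow_ne_zero _ hv0
    have e4 : φ Y ^ B ≠ 0 := pow_ne_zero _ hφY0
    rw [div_eq_iff e4]
    field_simp
    linear_combination e2
  rw [e1]
  have e5 : ζ' * (ε * u ^ A * (v ^ B)⁻¹) - ζ' = ζ' * (ε * u ^ A * (v ^ B)⁻¹ - 1) := by ring
  rw [e5, norm_mul, hζ'n, one_mul]
  exact near_mul (near_mul hε1 (near_pow hu1 _)) (near_inv (near_pow hv1 _))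

end Pool.Agent.Q224.HD
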