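import Pool.Agent.Q170.HD.St
import Pool.Agent.Q224.HD.PairCore

/-!
# Project HD, job PAIR
-/

set_option autoImplicit false
set_option linter.unusedSectionVars false

namespace Pool.Agent.Q224.HD

open Pool.Agent.Q170.HD

theorem pair : S_PAIR := by
  intro C _ _ _ _ _ p _ φ hp0 hp1 X Y hX hY a b ha hb hab hn N₀ hM
  exact pair_core C p φ hp0 hp1 X Y hX hY a b ha hb hab hn N₀ hM.1 hM.2.1 hM.2.2

end Pool.Agent.Q224.HD
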